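import Pool.Agent.Q144.BT.AdjA

/-!
# Project BT (helper74), job Adj: the mean number of levels of `K+1` walkers with successive distances `h₀ √t`
-/

set_option autoImplicit false

namespace Q144.BT

open Finset
open Pool.Agent.Q158.Pair (T surv nc)
open Pool.Agent.Q74.AR (oc qq be lim surv_main qq_main)
open Pool.Agent.Q74.KP (EE Erf EE_mono EE_add EE_sub EE_mul EE_const EE_sum EE_abs_le EE_nonneg)
open Pool.Agent.Q74.BL (EE_split)
open Pool.Agent.Q74.BT
open Pool.Agent.Q16.BT (sP yP lP Erf_mono Erf_nonneg)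
open Pool.Agent.Q151.BT (net_lev)

theorem quad (A B c : ℝ) (hc : 0 < c) : ∃ X : ℝ, 1 ≤ X ∧ ∀ s : ℝ, X ≤ s → A * s + B ≤ c * s ^ 2 := by
  refine ⟨max 1 ((|A| + |B|) / c), le_max_left _ _, fun s hs => ?_⟩
  have h1 : 1 ≤ s := le_trans (le_max_left _ _) hs
  have h2 : (|A| + |B|) / c ≤ s := le_trans (le_max_right _ _) hs
  rw [div_le_iff₀ hc] at h2
  have h5 := abs_nonneg B
  calc A * s + B ≤ |A| * s + |B| * 1 :=
        add_le_add (mul_le_mul_of_nonneg_right (le_abs_self A) (by linarith)) (by rw [mul_one]; exact le_abs_self B)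
    _ ≤ |A| * s + |B| * s := by
        have := mul_le_mul_of_nonneg_left h1 h5
        linarith
    _ = (|A| + |B|) * s := by ring
    _ ≤ (s * c) * s := mul_le_mul_of_nonneg_right h2 (by linarith)
    _ = c * s ^ 2 := by ring

/-- the distances of the times of the net -/
theorem net_dist {K : ℕ} {k : Fin (K + 1) → ℕ} {h₀ s : ℝ} (hs : 1 ≤ h₀ * s)
    (hk : ∀ i : Fin K, |kap * ((k i.succ : ℝ) - k i.castSucc) - h₀ * s| ≤ 1) (i : Fin (K + 1)) :
    ∃ q : ℕ, k (Fin.last K) = k i + q ∧ q ≤ ⌊(K : ℝ) * (h₀ * s + 1) / kap⌋₊ := by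
  have hkap := kap_pos
  have hmono : ∀ i : Fin K, k i.castSucc ≤ k i.succ := by
    intro i
    have h1 := (abs_le.1 (hk i)).1
    have h2 : 0 ≤ kap * ((k i.succ : ℝ) - k i.castSucc) := by linarith
    have h3 : 0 ≤ (k i.succ : ℝ) - k i.castSucc := by
      by_contra hcon
      push Not at hcon
      have := mul_neg_of_pos_of_neg hkap hcon
      linarith
    have h4 : (k i.castSucc : ℝ) ≤ k i.succ := by linarith
    exact_mod_cast h4
  have hle : ∀ i : Fin (K + 1), k i ≤ k (Fin.last K) := by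
    intro i
    induction i using Fin.reverseInduction with
    | last => exact le_rfl
    | cast i ih => exact (hmono i).trans ih
  have hdist : ∀ i : Fin (K + 1), kap * ((k (Fin.last K) : ℝ) - k i) ≤ ((K : ℝ) - (i : ℕ)) * (h₀ * s + 1) := by
    intro i
    induction i using Fin.reverseInduction with
    | last => simp
    | cast i ih =>
      have h1 := (abs_le.1 (hk i)).2
      rw [Fin.val_succ] at ih
      rw [Fin.val_castSucc]
      push_cast at ih
      have e1 : kap * ((k (Fin.last K) : ℝ) - k i.castSucc) =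
          kap * ((k (Fin.last K) : ℝ) - k i.succ) + kap * ((k i.succ : ℝ) - k i.castSucc) := by ring
      rw [e1]
      linarith
  obtain ⟨q, hq⟩ := Nat.exists_eq_add_of_le (hle i)
  refine ⟨q, hq, Nat.le_floor ?_⟩
  rw [le_div_iff₀ hkap]
  have h1 := hdist i
  have h2 : (k (Fin.last K) : ℝ) = k i + q := by exact_mod_cast hq
  rw [h2] at h1
  have h3 : ((K : ℝ) - (i : ℕ)) * (h₀ * s + 1) ≤ K * (h₀ * s + 1) := by
    refine mul_le_mul_of_nonneg_right ?_ (by linarith)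
    have : (0 : ℝ) ≤ (i : ℕ) := Nat.cast_nonneg _
    linarith
  calc (q : ℝ) * kap = kap * ((k i : ℝ) + q - k i) := by ring
    _ ≤ K * (h₀ * s + 1) := h1.trans h3

/-- the bad residues -/
theorem bad_mean {K : ℕ} {C : ℝ} (hC : 1 ≤ C) {L u S : ℕ} (hL : 1 ≤ L) {k q : Fin (K + 1) → ℕ} {j : Fin (K + 1) → ℤ → ℕ}
    (hj : ∀ i, LN C L (k i) (j i)) (hq1 : ∀ i, u = k i + q i) (hq2 : ∀ i, q i ≤ S) {η : ℝ} (hη : 0 < η) :
    EE u (fun x => Set.indicator {x : ℤ | ∃ i : Fin (K + 1), Real.log C + η < |(oc u (x + j i x) : ℝ) -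
      ((u : ℝ) / 2 + (kap * k i - Real.log L / Real.log 3))|} 1 x) ≤ (K + 1) * ((S : ℝ) / 4 / η ^ 2) := by
  have h3 : ∀ x : ℤ, Set.indicator {x : ℤ | ∃ i : Fin (K + 1), Real.log C + η < |(oc u (x + j i x) : ℝ) -
      ((u : ℝ) / 2 + (kap * k i - Real.log L / Real.log 3))|} (1 : ℤ → ℝ) x ≤
      ∑ i : Fin (K + 1), Set.indicator {x : ℤ | Real.log C + η < |(oc u (x + j i x) : ℝ) -
        ((u : ℝ) / 2 + (kap * k i - Real.log L / Real.log 3))|} (1 : ℤ → ℝ) x := by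
    intro x
    refine Set.indicator_apply_le' ?_ ?_
    · rintro ⟨i, hi⟩
      have h4 : x ∈ {x : ℤ | Real.log C + η < |(oc u (x + j i x) : ℝ) -
        ((u : ℝ) / 2 + (kap * k i - Real.log L / Real.log 3))|} := hi
      calc (1 : ℤ → ℝ) x = Set.indicator {x : ℤ | Real.log C + η < |(oc u (x + j i x) : ℝ) -
              ((u : ℝ) / 2 + (kap * k i - Real.log L / Real.log 3))|} (1 : ℤ → ℝ) x := by
            rw [Set.indicator_of_mem h4]
        _ ≤ _ := single_le_sum (f := fun i : Fin (K + 1) => Set.indicator {x : ℤ | Real.log C + η <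
              |(oc u (x + j i x) : ℝ) - ((u : ℝ) / 2 + (kap * k i - Real.log L / Real.log 3))|} (1 : ℤ → ℝ) x)
            (fun i _ => Set.indicator_nonneg (fun _ _ => zero_le_one) _) (mem_univ i)
    · intro _
      exact sum_nonneg fun i _ => Set.indicator_nonneg (fun _ _ => zero_le_one) _
  refine (EE_mono _ h3).trans ?_
  rw [EE_sum]
  have h4 : ∀ i : Fin (K + 1), EE u (Set.indicator {x : ℤ | Real.log C + η < |(oc u (x + j i x) : ℝ) -
        ((u : ℝ) / 2 + (kap * k i - Real.log L / Real.log 3))|} (1 : ℤ → ℝ)) ≤ (S : ℝ) / 4 / η ^ 2 := by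
    intro i
    have h5 := ln_ext hC hL (hj i) (q i) hη
    rw [← hq1 i] at h5
    refine h5.trans ?_
    have : (q i : ℝ) ≤ S := by exact_mod_cast hq2 i
    gcongr
  refine (sum_le_sum fun i _ => h4 i).trans ?_
  rw [sum_const, card_univ, Fintype.card_fin, nsmul_eq_mul]
  push_cast
  exact le_rfl

theorem card_bds {K : ℕ} (r : ℕ) (f : Fin (K + 1) → ℤ → ℤ) :
    0 ≤ EE r (fun N => ((univ.image fun i => f i N).card : ℝ)) ∧
      EE r (fun N => ((univ.image fun i => f i N).card : ℝ)) ≤ K + 1 := by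
  constructor
  · exact EE_nonneg r fun N => Nat.cast_nonneg _
  · have h1 : ∀ N : ℤ, ((univ.image fun i => f i N).card : ℝ) ≤ (K : ℝ) + 1 := by
      intro N
      have h2 : (univ.image fun i => f i N).card ≤ (univ : Finset (Fin (K + 1))).card := card_image_le
      rw [card_univ, Fintype.card_fin] at h2
      exact_mod_cast h2
    have h2 := EE_mono r h1
    rwa [EE_const] at h2

/-- the offsets are small -/
theorem exp_bd {C ρ ε₀ h₀ s K r kp : ℝ} {S : ℕ} (hC : 1 ≤ C) (hρ : 0 < ρ)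
    (hS : (S : ℝ) ≤ K * (h₀ * s + 1) / kp)
    (hX : K * h₀ / kp / 2 * s + (K / kp / 2 + Real.log (3 * C + 2)) ≤ ρ * ε₀ * s ^ 2) (hr : ε₀ * s ^ 2 ≤ r) :
    (3 * C + 2) * (3 / 2) ^ S ≤ Real.exp (ρ * r) := by
  have h1 : (3 / 2 : ℝ) ^ S ≤ Real.exp (S / 2) := by
    have h2 : (3 / 2 : ℝ) ≤ Real.exp (1 / 2) := by
      have := Real.add_one_le_exp (1 / 2 : ℝ)
      linarith
    calc (3 / 2 : ℝ) ^ S ≤ (Real.exp (1 / 2)) ^ S := pow_le_pow_left₀ (by norm_num) h2 S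
      _ = Real.exp (S / 2) := by rw [← Real.exp_nat_mul]; congr 1; ring
  have h3 : 3 * C + 2 = Real.exp (Real.log (3 * C + 2)) := by rw [Real.exp_log (by linarith)]
  have h4 : Real.log (3 * C + 2) + (S : ℝ) / 2 ≤ ρ * r := by
    have e1 : K * (h₀ * s + 1) / kp = 2 * (K * h₀ / kp / 2 * s + K / kp / 2) := by ring
    rw [e1] at hS
    have h5 : ρ * (ε₀ * s ^ 2) ≤ ρ * r := mul_le_mul_of_nonneg_left hr hρ.le
    linarith
  calc (3 * C + 2) * (3 / 2) ^ S ≤ (3 * C + 2) * Real.exp (S / 2) := mul_le_mul_of_nonneg_left h1 (by linarith)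
    _ = Real.exp (Real.log (3 * C + 2) + S / 2) := by rw [Real.exp_add, ← h3]
    _ ≤ Real.exp (ρ * r) := Real.exp_le_exp.2 h4

/-- JOB Adj. -/
theorem adj : S_Adj := by
  classical
  intro C ε₀ h₀ ε₁ K hC hε₀ hh₀ hε₁
  have hkap := kap_pos
  have hK : (0 : ℝ) ≤ K := Nat.cast_nonneg K
  have hlC : 0 ≤ Real.log C := Real.log_nonneg hC
  obtain ⟨c, hc⟩ : ∃ c : ℝ, c = √ε₀ := ⟨_, rfl⟩
  have hc0 : 0 < c := by rw [hc]; exact Real.sqrt_pos.2 hε₀
  obtain ⟨e, he⟩ : ∃ e : ℝ, e = ε₁ / (4 * (K * (2 * K + 3) + 1)) := ⟨_, rfl⟩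
  have he0 : 0 < e := by rw [he]; positivity
  have hKe : K * ((2 * K + 3) * e) ≤ ε₁ / 4 := by
    have h1 : e * (4 * (K * (2 * K + 3) + 1)) = ε₁ := by
      rw [he]
      field_simp
    have h2 : 0 ≤ e := he0.le
    linarith
  obtain ⟨t₂, -, hqq⟩ := qq_main he0
  obtain ⟨ρ, hρ, t₃, -, hsurv⟩ := surv_main he0
  obtain ⟨δ₁, hδ₁⟩ : ∃ δ : ℝ, δ = min (h₀ / 2) (ε₁ * c / (8 * (K + 1))) := ⟨_, rfl⟩
  have hδ₁0 : 0 < δ₁ := by rw [hδ₁]; positivity
  have hδ₁1 : δ₁ ≤ h₀ / 2 := by rw [hδ₁]; exact min_le_left _ _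
  have hδ₁2 : K * (2 * (δ₁ / c)) ≤ ε₁ / 4 := by
    have h1 : δ₁ ≤ ε₁ * c / (8 * (K + 1)) := by rw [hδ₁]; exact min_le_right _ _
    rw [le_div_iff₀ (by positivity)] at h1
    have h2 : K * (2 * (δ₁ / c)) = 2 * (K * δ₁) / c := by ring
    rw [h2, div_le_iff₀ hc0]
    have h3 : 0 ≤ K * δ₁ := by positivity
    linarith
  obtain ⟨M, hM⟩ : ∃ M : ℝ, M = K + 2 + K * (2 * (h₀ / c)) := ⟨_, rfl⟩
  have hM0 : 0 < M := by rw [hM]; positivity
  obtain ⟨X₁, hX₁1, hX₁⟩ := quad (K * h₀ / kap / 2) (K / kap / 2 + Real.log (3 * C + 2)) (ρ * ε₀) (by positivity)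
  obtain ⟨X₂, hX₂1, hX₂⟩ := quad (16 * M * (K + 1) * (K * h₀ / kap)) (16 * M * (K + 1) * (K / kap)) (ε₁ * δ₁ ^ 2)
    (by positivity)
  obtain ⟨X₃, hX₃⟩ : ∃ X : ℝ, X = (2 * Real.log C + 1) / (δ₁ / 2) := ⟨_, rfl⟩
  have hX₃0 : 0 ≤ X₃ := by rw [hX₃]; positivity
  refine ⟨⌈(X₁ + X₂ + X₃) ^ 2⌉₊ ⊔ ⌈((t₂ + t₃ + 1 : ℕ) : ℝ) / ε₀⌉₊, fun t ht L hL _ k hk hku j hj => ?_⟩
  simp only [sup_le_iff] at ht
  obtain ⟨g1, g2⟩ := ht
  obtain ⟨s, hs⟩ : ∃ s : ℝ, s = √(t : ℝ) := ⟨_, rfl⟩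
  have hs2 : s ^ 2 = t := by rw [hs, Real.sq_sqrt (Nat.cast_nonneg t)]
  have hsX : X₁ + X₂ + X₃ ≤ s := by
    rw [hs]
    apply Real.le_sqrt_of_sq_le
    exact (Nat.le_ceil _).trans (by exact_mod_cast g1)
  have hs0 : 0 < s := by linarith
  have h1 := hX₁ s (by linarith)
  have h2 := hX₂ s (by linarith)
  have h3 : 2 * Real.log C + 1 ≤ s * (δ₁ / 2) := by
    have h4 : X₃ ≤ s := by linarith
    rw [hX₃, div_le_iff₀ (by positivity)] at h4
    exact h4
  have hhs : 1 ≤ h₀ * s := by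
    have h4 : s * (δ₁ / 2) ≤ s * (h₀ / 2 / 2) := mul_le_mul_of_nonneg_left (by linarith) hs0.le
    have h5 : 0 < h₀ * s := by positivity
    linarith
  rw [← hs] at hk ⊢
  choose q hq1 hq2 using net_dist hhs hk
  obtain ⟨S, hS⟩ : ∃ S : ℕ, S = ⌊(K : ℝ) * (h₀ * s + 1) / kap⌋₊ := ⟨_, rfl⟩
  have hS2 : (S : ℝ) ≤ K * (h₀ * s + 1) / kap := by
    rw [hS]
    exact Nat.floor_le (by positivity)
  rw [← hS] at hq2
  obtain ⟨u, hu⟩ : ∃ u : ℕ, u = k (Fin.last K) := ⟨_, rfl⟩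
  rw [← hu] at hku hq1 ⊢
  have ht0 : (0 : ℝ) ≤ t := Nat.cast_nonneg t
  have hut : u ≤ t := by
    have h4 : (u : ℝ) ≤ t := by
      have : 0 ≤ ε₀ * t := by positivity
      linarith
    exact_mod_cast h4
  obtain ⟨r, hr⟩ := Nat.exists_eq_add_of_le hut
  have hrr : (t : ℝ) - u = r := by
    have : (t : ℝ) = u + r := by exact_mod_cast hr
    linarith
  rw [hrr]
  have hrε : ε₀ * t ≤ r := by linarith
  have hrt : t₂ + t₃ + 1 ≤ r := by
    have h4 : ((t₂ + t₃ + 1 : ℕ) : ℝ) / ε₀ ≤ t := (Nat.le_ceil _).trans (by exact_mod_cast g2)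
    rw [div_le_iff₀ hε₀] at h4
    have h5 : ((t₂ + t₃ + 1 : ℕ) : ℝ) ≤ r := by linarith
    exact_mod_cast h5
  have hr0 : 0 < √(r : ℝ) := Real.sqrt_pos.2 (by
    have : 0 < r := by omega
    exact_mod_cast this)
  have hcr : c * s ≤ √(r : ℝ) := by
    rw [hc, hs, ← Real.sqrt_mul hε₀.le]
    exact Real.sqrt_le_sqrt hrε
  obtain ⟨η, hη⟩ : ∃ η : ℝ, η = δ₁ * s / 4 := ⟨_, rfl⟩
  have hη0 : 0 < η := by rw [hη]; positivity
  have hbad := bad_mean hC hL hj hq1 hq2 hη0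
  obtain ⟨B, hB⟩ : ∃ B : Set ℤ, B = {x : ℤ | ∃ i : Fin (K + 1), Real.log C + η < |(oc u (x + j i x) : ℝ) -
      ((u : ℝ) / 2 + (kap * k i - Real.log L / Real.log 3))|} := ⟨_, rfl⟩
  rw [← hB] at hbad
  -- the target
  obtain ⟨G, hG⟩ : ∃ G : ℝ, G = 1 + K * Erf (h₀ * s / √(r : ℝ)) := ⟨_, rfl⟩
  have hG0 : 0 ≤ G := by
    rw [hG]
    have := Erf_nonneg (x := h₀ * s / √(r : ℝ)) (by positivity)
    positivity
  have hGM : G ≤ 1 + K * (2 * (h₀ / c)) := by
    rw [hG]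
    have h4 : h₀ * s / √(r : ℝ) ≤ h₀ / c := by
      rw [div_le_div_iff₀ hr0 hc0]
      calc h₀ * s * c = h₀ * (c * s) := by ring
        _ ≤ h₀ * √(r : ℝ) := mul_le_mul_of_nonneg_left hcr hh₀.le
    have h5 := erf_lip (x := 0) (y := h₀ * s / √(r : ℝ)) (by positivity)
    rw [erf_zero] at h5
    have h6 : Erf (h₀ * s / √(r : ℝ)) ≤ 2 * (h₀ / c) := by linarith
    have := mul_le_mul_of_nonneg_left h6 hK
    linarith
  rw [← hG]
  have hper : ∀ (i : Fin (K + 1)) (x y : ℤ), j i (x + 2 ^ u * y) = j i x := by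
    intro i x y
    rw [hq1 i, pow_add, mul_assoc]
    exact (hj i).2.1 x _
  have key : ∀ x : ℤ, |EE r (fun N => ((univ.image fun i => lP (oc u (x + j i x), T^[u] (x + j i x)) r N).card : ℝ)) - G| ≤
      ε₁ / 2 + M * Set.indicator B 1 x := by
    intro x
    by_cases hx : x ∈ B
    · rw [Set.indicator_of_mem hx, Pi.one_apply, mul_one]
      obtain ⟨i1, i2⟩ := card_bds r (fun (i : Fin (K + 1)) (N : ℤ) => lP (oc u (x + j i x), T^[u] (x + j i x)) r N)
      rw [abs_le]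
      have h6 : 0 ≤ K * (2 * (h₀ / c)) := by positivity
      constructor <;> linarith
    · rw [Set.indicator_of_notMem hx, mul_zero, add_zero]
      have hx' : ∀ i : Fin (K + 1), |(oc u (x + j i x) : ℝ) -
          ((u : ℝ) / 2 + (kap * k i - Real.log L / Real.log 3))| ≤ Real.log C + η := by
        intro i
        by_contra hcon
        push Not at hcon
        exact hx (by rw [hB]; exact ⟨i, hcon⟩)
      have hgap : ∀ i : Fin K, |(oc u (x + j i.succ x) : ℝ) - oc u (x + j i.castSucc x) - h₀ * s| ≤ δ₁ * s := by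
        intro i
        have i1 := abs_le.1 (hx' i.succ)
        have i2 := abs_le.1 (hx' i.castSucc)
        have i3 := abs_le.1 (hk i)
        rw [abs_le]
        constructor
        · linarith [i1.1, i2.2, i3.1]
        · linarith [i1.2, i2.1, i3.2]
      have f3 : ∀ i : Fin K, oc u (x + j i.castSucc x) ≤ oc u (x + j i.succ x) := by
        intro i
        have i1 := (abs_le.1 (hgap i)).1
        have i2 : δ₁ * s ≤ h₀ / 2 * s := mul_le_mul_of_nonneg_right hδ₁1 hs0.le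
        have i3 : 0 < h₀ * s := by positivity
        have h4 : (oc u (x + j i.castSucc x) : ℝ) ≤ oc u (x + j i.succ x) := by linarith
        exact_mod_cast h4
      have hg := good_x (K := K) (r := r) (t := t) (e := e) (δ₁ := δ₁) (h₀ := h₀) (c := c)
        (fun i => (oc u (x + j i x), T^[u] (x + j i x))) f3
        (fun i => hqq r (by omega) _) (fun i => hsurv r (by omega) _
          ((be_bd hC (hj i.castSucc) (hj i.succ) (hq1 _) (hq1 _) (hq2 _) (hq2 _) x (f3 i)).trans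
            (exp_bd hC hρ hS2 h1 (by rw [hs2]; exact hrε))))
        hr0 hc0 (by rw [← hs]; exact hcr) hδ₁0.le he0.le (by rw [← hs]; exact hgap)
      rw [← hs, ← hG] at hg
      refine hg.trans ?_
      linarith
  rw [hr, EE_split]
  have e1 : EE u (fun x => EE r (fun N => ((univ.image fun i =>
      (oc (u + r) ((2 ^ u * N + x) + j i (2 ^ u * N + x)) : ℤ)).card : ℝ))) - G =
      EE u (fun x => EE r (fun N => ((univ.image fun i =>
        lP (oc u (x + j i x), T^[u] (x + j i x)) r N).card : ℝ)) - G) := by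
    rw [EE_sub, EE_const]
    simp only [net_lev u r j hper]
  rw [e1]
  refine (EE_abs_le u key).trans ?_
  rw [EE_add, EE_const, EE_mul]
  have h7 : M * EE u (fun x => Set.indicator B 1 x) ≤ ε₁ / 4 := by
    refine (mul_le_mul_of_nonneg_left hbad hM0.le).trans ?_
    have e2 : M * ((K + 1) * ((S : ℝ) / 4 / η ^ 2)) = 4 * M * (K + 1) * S / (δ₁ ^ 2 * s ^ 2) := by
      rw [hη]
      field_simp
    rw [e2, div_le_iff₀ (by positivity)]
    have h8 : 4 * M * (K + 1) * S ≤ 4 * M * (K + 1) * (K * (h₀ * s + 1) / kap) :=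
      mul_le_mul_of_nonneg_left hS2 (by positivity)
    have e3 : 4 * M * (K + 1) * (K * (h₀ * s + 1) / kap) =
        (16 * M * (K + 1) * (K * h₀ / kap) * s + 16 * M * (K + 1) * (K / kap)) / 4 := by ring
    rw [e3] at h8
    linarith
  linarith

end Q144.BT
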