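import Pool.Agent.Q144.BT.NetE
import Pool.Agent.Q14.BT.Net
import Pool.Agent.Q151.BT.TightW

/-!
# Project BT (helper74), job Adj, part 1: lemmas
-/

set_option autoImplicit false

namespace Q144.BT

open Finset
open Pool.Agent.Q158.Pair (T surv nc)
open Pool.Agent.Q74.AR (oc qq be lim lim_erf)
open Pool.Agent.Q74.KP (EE Erf EE_mono EE_add EE_sub EE_mul EE_const EE_sum)
open Pool.Agent.Q74.BL (nx EE_split)
open Pool.Agent.Q74.BT
open Pool.Agent.Q16.BT (sP yP lP EE_nc' nc_cases nc_eq_zero Erf_mono Erf_nonneg)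
open Pool.Agent.Q14.BT (extend)
open Pool.Agent.Q151.BT (lev_mean)

theorem erf_lip {x y : ℝ} (h : x ≤ y) : Erf y - Erf x ≤ 2 * (y - x) := by
  unfold Erf
  have hi : ∀ a b : ℝ, IntervalIntegrable (fun y : ℝ => Real.exp (-y ^ 2)) MeasureTheory.volume a b := by
    intro a b
    apply Continuous.intervalIntegrable
    fun_prop
  rw [← mul_sub, intervalIntegral.integral_interval_sub_left (hi 0 y) (hi 0 x)]
  have h1 : ∫ s in x..y, Real.exp (-s ^ 2) ≤ ∫ _ in x..y, (1 : ℝ) := by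
    apply intervalIntegral.integral_mono_on h (hi x y) (by simp)
    intro s _
    rw [Real.exp_le_one_iff]
    nlinarith [sq_nonneg s]
  rw [intervalIntegral.integral_const, smul_eq_mul, mul_one] at h1
  have h2 : 2 / √Real.pi ≤ 2 := by
    have h6 : (1 : ℝ) ≤ √Real.pi := by
      rw [Real.one_le_sqrt]
      linarith [Real.pi_gt_three]
    rw [div_le_iff₀ (by linarith)]
    linarith
  have h3 : 0 ≤ ∫ s in x..y, Real.exp (-s ^ 2) :=
    intervalIntegral.integral_nonneg h fun t _ => (Real.exp_pos _).le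
  calc 2 / √Real.pi * ∫ s in x..y, Real.exp (-s ^ 2) ≤ 2 * ∫ s in x..y, Real.exp (-s ^ 2) :=
        mul_le_mul_of_nonneg_right h2 h3
    _ ≤ 2 * (y - x) := by linarith

theorem erf_lip' (x y : ℝ) : |Erf x - Erf y| ≤ 2 * |x - y| := by
  rcases le_total x y with h | h
  · have h1 := erf_lip h
    have h2 := Erf_mono h
    rw [abs_of_nonpos (by linarith), abs_of_nonpos (by linarith)]
    linarith
  · have h1 := erf_lip h
    have h2 := Erf_mono h
    rw [abs_of_nonneg (by linarith), abs_of_nonneg (by linarith)]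
    linarith

theorem erf_zero : Erf 0 = 0 := by
  unfold Erf
  simp

theorem log_three_gt : 1 < Real.log 3 := by
  rw [Real.lt_log_iff_exp_lt (by norm_num)]
  have := Real.exp_one_lt_d9
  linarith

theorem kap_pos : 0 < kap := by
  unfold kap
  have h3 := log_three_gt
  have h4 : Real.log 3 < 2 * Real.log 2 := by
    have h5 : 2 * Real.log 2 = Real.log 4 := by
      have : (4 : ℝ) = 2 ^ 2 := by norm_num
      rw [this, Real.log_pow]
      norm_num
    rw [h5]
    exact Real.log_lt_log (by norm_num) (by norm_num)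
  have h6 : 1 / 2 < Real.log 2 / Real.log 3 := by
    rw [div_lt_div_iff₀ (by norm_num) (by linarith)]
    linarith
  linarith

/-- the level at the time of the net -/
theorem ln_level {C : ℝ} (hC : 1 ≤ C) {L v : ℕ} (hL : 1 ≤ L) {j : ℤ → ℕ} (h : LN C L v j) (x : ℤ) :
    |(oc v (x + j x) : ℝ) - ((v : ℝ) / 2 + (kap * v - Real.log L / Real.log 3))| ≤ Real.log C := by
  obtain ⟨h1, h2, -⟩ := h.2.2 x
  have hl3 := log_three_gt
  have hL0 : (0 : ℝ) < L := by exact_mod_cast hL
  have hC0 : 0 < C := by linarith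
  have h3o : (0 : ℝ) < 3 ^ oc v (x + j x) := by positivity
  have g1 := Real.log_le_log (by positivity) h1
  have g2 := Real.log_le_log (by positivity) h2
  rw [Real.log_pow, Real.log_mul hC0.ne' (mul_pos h3o hL0).ne', Real.log_mul h3o.ne' hL0.ne', Real.log_pow] at g1
  rw [Real.log_mul h3o.ne' hL0.ne', Real.log_pow, Real.log_mul hC0.ne' (by positivity), Real.log_pow] at g2
  have e : (oc v (x + j x) : ℝ) - ((v : ℝ) / 2 + (kap * v - Real.log L / Real.log 3)) =
      (oc v (x + j x) * Real.log 3 - (v * Real.log 2 - Real.log L)) / Real.log 3 := by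
    unfold kap
    have : Real.log 3 ≠ 0 := by linarith
    field_simp
    ring
  rw [e, abs_div, abs_of_pos (by linarith : 0 < Real.log 3), div_le_iff₀ (by linarith)]
  have h4 : |oc v (x + j x) * Real.log 3 - (v * Real.log 2 - Real.log L)| ≤ Real.log C := by
    rw [abs_le]
    constructor <;> linarith
  have hlC : 0 ≤ Real.log C := Real.log_nonneg hC
  refine h4.trans ?_
  have := mul_le_mul_of_nonneg_left hl3.le hlC
  linarith

/-- Chebyshev -/
theorem ln_ext {C : ℝ} (hC : 1 ≤ C) {L v : ℕ} (hL : 1 ≤ L) {j : ℤ → ℕ} (h : LN C L v j) (r : ℕ) {η : ℝ} (hη : 0 < η) :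
    EE (v + r) (fun x => Set.indicator {x : ℤ | Real.log C + η < |(oc (v + r) (x + j x) : ℝ) -
      (((v + r : ℕ) : ℝ) / 2 + (kap * v - Real.log L / Real.log 3))|} 1 x) ≤ r / 4 / η ^ 2 := by
  refine (extend v r j h.2.1 _ _ η hη).trans ?_
  have h1 : EE v (fun x => Set.indicator {x : ℤ | Real.log C < |(oc v (x + j x) : ℝ) -
      ((v : ℝ) / 2 + (kap * v - Real.log L / Real.log 3))|} (1 : ℤ → ℝ) x) ≤ EE v (fun _ => 0) := by
    refine EE_mono v fun x => ?_
    rw [Set.indicator_of_notMem]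
    rw [Set.mem_ofPred_eq, not_lt]
    exact ln_level hC hL h x
  rw [EE_const] at h1
  linarith

theorem er_bd2 (S d : ℕ) (z : ℤ) : |er (S + d) z| + 1 ≤ (3 / 2) ^ d * (|er S z| + 1) := by
  induction d with
  | zero => simp
  | succ d ih =>
    have h0 := abs_nonneg (er (S + d) z)
    have h1 : |er (S + (d + 1)) z| + 1 ≤ 3 / 2 * (|er (S + d) z| + 1) := by
      rw [← add_assoc]
      rcases step_cases (S + d) z with ⟨-, h2⟩ | ⟨-, h2⟩
      · rw [h2, abs_div, abs_of_pos (show (0 : ℝ) < 2 by norm_num)]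
        linarith
      · rw [h2, abs_div, abs_of_pos (show (0 : ℝ) < 2 by norm_num)]
        have h3 : |3 * er (S + d) z + 1| ≤ 3 * |er (S + d) z| + 1 := by
          refine (abs_add_le _ _).trans ?_
          rw [abs_mul, abs_of_pos (show (0 : ℝ) < 3 by norm_num), abs_one]
        linarith
    calc |er (S + (d + 1)) z| + 1 ≤ 3 / 2 * (|er (S + d) z| + 1) := h1
      _ ≤ 3 / 2 * ((3 / 2) ^ d * (|er S z| + 1)) := mul_le_mul_of_nonneg_left ih (by norm_num)
      _ = (3 / 2) ^ (d + 1) * (|er S z| + 1) := by rw [pow_succ]; ring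

/-- the state of a pair of walkers of the net -/
theorem be_bd {C : ℝ} (hC : 1 ≤ C) {L v v' s s' u S : ℕ} {j j' : ℤ → ℕ} (h : LN C L v j)
    (h' : LN C L v' j') (hu : u = v + s) (hu' : u = v' + s') (hs : s ≤ S) (hs' : s' ≤ S) (x : ℤ)
    (ha : oc u (x + j x) ≤ oc u (x + j' x)) :
    be (sP (oc u (x + j x), T^[u] (x + j x)) (oc u (x + j' x), T^[u] (x + j' x))) ≤ (3 * C + 2) * (3 / 2) ^ S := by
  have hC0 : 0 < C := by linarith
  obtain ⟨-, b1, b2⟩ := h.2.2 x
  obtain ⟨-, -, b2'⟩ := h'.2.2 x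
  have e0 : ∀ z : ℤ, (T^[u] z : ℝ) = 3 ^ oc u z * z / 2 ^ u + er u z := by
    intro z
    unfold er
    ring
  have f1 : |er v (x + j x)| ≤ C := by
    unfold er
    push_cast
    exact b2
  have f1' : |er v' (x + j' x)| ≤ C := by
    unfold er
    push_cast
    exact b2'
  have hpS : ∀ {a : ℕ}, a ≤ S → ((3 : ℝ) / 2) ^ a ≤ (3 / 2) ^ S := fun ha => pow_le_pow_right₀ (by norm_num) ha
  have f2 : |er u (x + j x)| ≤ (C + 1) * (3 / 2) ^ S := by
    have := er_bd2 v s (x + j x)
    rw [← hu] at this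
    have h3 : (3 / 2 : ℝ) ^ s * (|er v (x + j x)| + 1) ≤ (3 / 2) ^ S * (C + 1) :=
      mul_le_mul (hpS hs) (by linarith) (by positivity) (by positivity)
    linarith
  have f2' : |er u (x + j' x)| ≤ (C + 1) * (3 / 2) ^ S := by
    have := er_bd2 v' s' (x + j' x)
    rw [← hu'] at this
    have h3 : (3 / 2 : ℝ) ^ s' * (|er v' (x + j' x)| + 1) ≤ (3 / 2) ^ S * (C + 1) :=
      mul_le_mul (hpS hs') (by linarith) (by positivity) (by positivity)
    linarith
  have f3 : |(3 : ℝ) ^ oc u (x + j x) * ((j' x : ℝ) - j x) / 2 ^ u| ≤ C * (3 / 2) ^ S := by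
    rw [abs_div, abs_mul, abs_of_pos (by positivity : (0 : ℝ) < 2 ^ u),
      abs_of_pos (by positivity : (0 : ℝ) < 3 ^ oc u (x + j x)), div_le_iff₀ (by positivity)]
    have g1 : |(j' x : ℝ) - j x| ≤ L := by
      have i1 : (j x : ℝ) < L := by exact_mod_cast h.1 x
      have i2 : (j' x : ℝ) < L := by exact_mod_cast h'.1 x
      have i3 : (0 : ℝ) ≤ j x := Nat.cast_nonneg _
      have i4 : (0 : ℝ) ≤ j' x := Nat.cast_nonneg _
      rw [abs_le]
      constructor <;> linarith
    have g2 : (3 : ℝ) ^ oc u (x + j x) ≤ 3 ^ oc v (x + j x) * 3 ^ s := by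
      rw [← pow_add, hu]
      exact pow_le_pow_right₀ (by norm_num) (oc_bd v s _).2
    calc (3 : ℝ) ^ oc u (x + j x) * |(j' x : ℝ) - j x| ≤ (3 ^ oc v (x + j x) * 3 ^ s) * L :=
          mul_le_mul g2 g1 (abs_nonneg _) (by positivity)
      _ = 3 ^ s * (3 ^ oc v (x + j x) * L) := by ring
      _ ≤ 3 ^ s * (C * 2 ^ v) := mul_le_mul_of_nonneg_left b1 (by positivity)
      _ = C * (3 / 2) ^ s * 2 ^ u := by
          rw [hu, pow_add, div_pow]
          field_simp
      _ ≤ C * (3 / 2) ^ S * 2 ^ u := by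
          have := hpS hs
          gcongr
  obtain ⟨P, hP⟩ : ∃ P : ℝ, P = 3 ^ (oc u (x + j' x) - oc u (x + j x)) := ⟨_, rfl⟩
  have hP1 : 1 ≤ P := by rw [hP]; exact one_le_pow₀ (by norm_num)
  have e3 : (3 : ℝ) ^ oc u (x + j' x) = P * 3 ^ oc u (x + j x) := by
    rw [hP, ← pow_add, Nat.sub_add_cancel ha]
  unfold be sP
  simp only
  push_cast
  rw [e0, e0, e3, ← hP, div_le_iff₀ (by linarith)]
  push_cast
  have e4 : P * 3 ^ oc u (x + j x) * ((x : ℝ) + j' x) / 2 ^ u + er u (x + j' x) -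
      P * (3 ^ oc u (x + j x) * ((x : ℝ) + j x) / 2 ^ u + er u (x + j x)) =
      P * (3 ^ oc u (x + j x) * ((j' x : ℝ) - j x) / 2 ^ u) + (er u (x + j' x) - P * er u (x + j x)) := by ring
  rw [e4]
  refine (abs_add_le _ _).trans ?_
  have g3 : |P * (3 ^ oc u (x + j x) * ((j' x : ℝ) - j x) / 2 ^ u)| ≤ P * (C * (3 / 2) ^ S) := by
    rw [abs_mul, abs_of_pos (by linarith : 0 < P)]
    exact mul_le_mul_of_nonneg_left f3 (by linarith)
  have g4 : |er u (x + j' x) - P * er u (x + j x)| ≤ P * ((C + 1) * (3 / 2) ^ S) + P * ((C + 1) * (3 / 2) ^ S) := by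
    refine (abs_sub _ _).trans ?_
    rw [abs_mul, abs_of_pos (by linarith : 0 < P)]
    have g5 : P * |er u (x + j x)| ≤ P * ((C + 1) * (3 / 2) ^ S) := mul_le_mul_of_nonneg_left f2 (by linarith)
    have g6 : 1 * ((C + 1) * (3 / 2 : ℝ) ^ S) ≤ P * ((C + 1) * (3 / 2) ^ S) :=
      mul_le_mul_of_nonneg_right hP1 (by positivity)
    linarith
  calc _ ≤ P * (C * (3 / 2) ^ S) + (P * ((C + 1) * (3 / 2) ^ S) + P * ((C + 1) * (3 / 2) ^ S)) := add_le_add g3 g4
    _ = (3 * C + 2) * (3 / 2) ^ S * P := by ring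

theorem card_le (k : ℕ) : ∀ z : Fin (k + 1) → ℤ,
    ((univ.image z).card : ℝ) ≤ 1 + ∑ i : Fin k, if z i.succ ≠ z i.castSucc then (1 : ℝ) else 0 := by
  induction k with
  | zero =>
    intro z
    have h1 : (univ.image z).card ≤ (univ : Finset (Fin (0 + 1))).card := card_image_le
    rw [card_univ, Fintype.card_fin] at h1
    have h2 : ((univ.image z).card : ℝ) ≤ 1 := by exact_mod_cast h1
    simpa using h2
  | succ k ih =>
    intro z
    have h1 : univ.image z ⊆ insert (z (Fin.last (k + 1))) (univ.image (fun i : Fin (k + 1) => z i.castSucc)) := by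
      intro x hx
      simp only [mem_image, mem_univ, true_and, mem_insert] at hx ⊢
      obtain ⟨i, rfl⟩ := hx
      refine Fin.lastCases ?_ (fun j => ?_) i
      · left; rfl
      · right; exact ⟨j, rfl⟩
    have h2 := ih (fun i : Fin (k + 1) => z i.castSucc)
    rw [Fin.sum_univ_castSucc]
    have e1 : ∀ i : Fin k, z (i.castSucc).succ = z (i.succ).castSucc := fun i => by rw [Fin.succ_castSucc]
    simp only [e1, Fin.succ_last]
    by_cases h : z (Fin.last (k + 1)) ≠ z (Fin.last k).castSucc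
    · rw [if_pos h]
      have h3 := (card_le_card h1).trans (card_insert_le _ _)
      have h4 : ((univ.image z).card : ℝ) ≤ ((univ.image (fun i : Fin (k + 1) => z i.castSucc)).card : ℝ) + 1 := by
        exact_mod_cast h3
      linarith
    · rw [if_neg h]
      push Not at h
      have h3 : z (Fin.last (k + 1)) ∈ univ.image (fun i : Fin (k + 1) => z i.castSucc) := by
        rw [h]
        exact mem_image_of_mem _ (mem_univ _)
      rw [insert_eq_of_mem h3] at h1
      have h4 : ((univ.image z).card : ℝ) ≤ ((univ.image (fun i : Fin (k + 1) => z i.castSucc)).card : ℝ) := by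
        exact_mod_cast card_le_card h1
      linarith

/-- pointwise upper bound of the number of levels -/
theorem lev_up {k : ℕ} (r : ℕ) (z : Fin (k + 1) → ℕ × ℤ) (hz : ∀ i : Fin k, (z i.castSucc).1 ≤ (z i.succ).1) (N : ℤ) :
    ((univ.image fun i => lP (z i) r N).card : ℝ) ≤
      1 + ∑ i : Fin k, nc r (sP (z i.castSucc) (z i.succ)) (yP (z i.castSucc) N) := by
  refine (card_le k _).trans (add_le_add le_rfl (sum_le_sum fun i _ => ?_))
  rcases nc_cases r (sP (z i.castSucc) (z i.succ)) (yP (z i.castSucc) N) with h | h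
  · have h1 := nc_eq_zero (hz i) r N h
    have h2 := congrArg Prod.fst h1
    have h3 : (z i.castSucc).1 + oc r (3 ^ (z i.castSucc).1 * N + (z i.castSucc).2) =
        (z i.succ).1 + oc r (3 ^ (z i.succ).1 * N + (z i.succ).2) := h2
    have h4 : lP (z i.castSucc) r N = lP (z i.succ) r N := by
      unfold lP yP
      exact_mod_cast h3
    rw [h, if_neg (by rw [h4]; exact fun h => h rfl)]
  · rw [h]
    split_ifs <;> norm_num

/-- the mean number of levels in a good class -/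
theorem good_x {K r t : ℕ} {e δ₁ h₀ c : ℝ} (z : Fin (K + 1) → ℕ × ℤ)
    (hz : ∀ i : Fin K, (z i.castSucc).1 ≤ (z i.succ).1)
    (hq : ∀ i : Fin K, |qq r (sP (z i.castSucc) (z i.succ)) - lim r (sP (z i.castSucc) (z i.succ)).1| ≤ e)
    (hs : ∀ i : Fin K, |surv r (sP (z i.castSucc) (z i.succ)) - lim r (sP (z i.castSucc) (z i.succ)).1| ≤ e)
    (hr : 0 < √(r : ℝ)) (hc : 0 < c) (hcr : c * √(t : ℝ) ≤ √(r : ℝ)) (hδ : 0 ≤ δ₁) (he : 0 ≤ e)
    (hgap : ∀ i : Fin K, |((z i.succ).1 : ℝ) - (z i.castSucc).1 - h₀ * √(t : ℝ)| ≤ δ₁ * √(t : ℝ)) :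
    |EE r (fun N => ((univ.image fun i => lP (z i) r N).card : ℝ)) - (1 + K * Erf (h₀ * √t / √r))| ≤
      K * (2 * (δ₁ / c)) + K * ((2 * K + 3) * e) := by
  have hK : (0 : ℝ) ≤ K := Nat.cast_nonneg K
  have h1 : ∀ i : Fin K, |Erf ((((z i.succ).1 : ℝ) - (z i.castSucc).1) / √r) - Erf (h₀ * √t / √r)| ≤ 2 * (δ₁ / c) := by
    intro i
    refine (erf_lip' _ _).trans ?_
    refine mul_le_mul_of_nonneg_left ?_ (by norm_num)
    rw [← sub_div, abs_div, abs_of_pos hr, div_le_div_iff₀ hr hc]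
    calc |((z i.succ).1 : ℝ) - (z i.castSucc).1 - h₀ * √(t : ℝ)| * c ≤ (δ₁ * √(t : ℝ)) * c :=
          mul_le_mul_of_nonneg_right (hgap i) hc.le
      _ = δ₁ * (c * √(t : ℝ)) := by ring
      _ ≤ δ₁ * √(r : ℝ) := mul_le_mul_of_nonneg_left hcr hδ
  have h2 : |∑ i : Fin K, Erf ((((z i.succ).1 : ℝ) - (z i.castSucc).1) / √r) - K * Erf (h₀ * √t / √r)| ≤
      K * (2 * (δ₁ / c)) := by
    have e1 : ∑ i : Fin K, Erf ((((z i.succ).1 : ℝ) - (z i.castSucc).1) / √r) - K * Erf (h₀ * √t / √r) =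
        ∑ i : Fin K, (Erf ((((z i.succ).1 : ℝ) - (z i.castSucc).1) / √r) - Erf (h₀ * √t / √r)) := by
      rw [sum_sub_distrib, sum_const, card_univ, Fintype.card_fin, nsmul_eq_mul]
    rw [e1]
    refine (abs_sum_le_sum_abs _ _).trans ((sum_le_sum fun i _ => h1 i).trans ?_)
    rw [sum_const, card_univ, Fintype.card_fin, nsmul_eq_mul]
  have h3 := lev_mean r e z hz hq hs
  have h4 : EE r (fun N => ((univ.image fun i => lP (z i) r N).card : ℝ)) ≤
      1 + ∑ i : Fin K, Erf ((((z i.succ).1 : ℝ) - (z i.castSucc).1) / √r) + K * e := by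
    refine (EE_mono r (fun N => lev_up r z hz N)).trans ?_
    rw [EE_add, EE_const, EE_sum, add_assoc]
    refine add_le_add le_rfl ?_
    have h5 : ∀ i : Fin K, EE r (fun N => nc r (sP (z i.castSucc) (z i.succ)) (yP (z i.castSucc) N)) ≤
        Erf ((((z i.succ).1 : ℝ) - (z i.castSucc).1) / √r) + e := by
      intro i
      rw [EE_nc']
      have e1 : lim r (sP (z i.castSucc) (z i.succ)).1 = Erf (((sP (z i.castSucc) (z i.succ)).1 : ℕ) / √(r : ℝ)) :=
        lim_erf r _
      have e2 : (((sP (z i.castSucc) (z i.succ)).1 : ℕ) : ℝ) = ((z i.succ).1 : ℝ) - (z i.castSucc).1 := by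
        show ((((z i.succ).1 - (z i.castSucc).1 : ℕ)) : ℝ) = _
        rw [Nat.cast_sub (hz i)]
      rw [e2] at e1
      rw [← e1]
      have := (abs_le.1 (hs i)).2
      linarith
    refine (sum_le_sum fun i _ => h5 i).trans ?_
    rw [sum_add_distrib, sum_const, card_univ, Fintype.card_fin, nsmul_eq_mul]
  have h5 := abs_le.1 h2
  have h6 : (K : ℝ) * e ≤ K * ((2 * K + 3) * e) := by
    refine mul_le_mul_of_nonneg_left ?_ hK
    have : 0 ≤ (2 * K + 2) * e := by positivity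
    linarith
  rw [abs_le]
  constructor <;> linarith [h5.1, h5.2]

end Q144.BT
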