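import Pool.Agent.Q74.BT.Stm6
import Pool.Agent.Q209.BT.Low

/-!
# Project BT (helper74), job NetE
-/

set_option autoImplicit false

namespace Q144.BT

open Finset
open Pool.Agent.Q158.Pair (T)
open Pool.Agent.Q74.AR (oc)
open Pool.Agent.Q74.KP (oc_add)
open Pool.Agent.H395R2.G3 (rr FF rr_spec rr_pos rr_lt_one)
open Pool.Agent.Q74.BT

/-- block words with `s / (s log 2 - n log 3)` close to `α` -/
theorem word (h : S_BM) {γ : ℝ} (hγ : IsG γ) {α ε : ℝ} (hα1 : 1 / Real.log 2 < α) (hα2 : α < γ)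
    (hε : 0 < ε) : ∃ n s : ℕ, 1 ≤ s ∧ 0 < s * Real.log 2 - n * Real.log 3 ∧
      |(s : ℝ) / (s * Real.log 2 - n * Real.log 3) - α| ≤ ε ∧
      ∀ y : ℤ, ¬ (3 : ℤ) ∣ y → ∃ x : ℤ, ¬ (3 : ℤ) ∣ x ∧ T^[s] x = y ∧ oc s x = n ∧
        |3 ^ n * x - 2 ^ s * y| ≤ 3 ^ n * 2 ^ s := by
  have hl2 : 0 < Real.log 2 := Real.log_pos (by norm_num)
  have hl3 : 0 < Real.log 3 := Real.log_pos (by norm_num)
  have hl3' : Real.log 3 < 3 / 2 := by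
    have := Real.log_three_lt_d9
    linarith
  have hα0 : 0 < α := lt_trans (by positivity) hα1
  have hF : 0 < FF (rr α) := hγ.2.2.2 α hα1 hα2
  have hr0 := rr_pos hα1
  have hr1 := rr_lt_one hα0
  have hspec := rr_spec α
  set r : ℝ := rr α with hr
  obtain ⟨δ', hδ'0, hδ'2, hδ'3, hδ'5⟩ : ∃ δ' : ℝ, 0 < δ' ∧
      3 * α * δ' ≤ 1 / 2 ∧ 6 * α ^ 2 * δ' ≤ ε ∧ δ' ≤ 1 / 2 := by
    refine ⟨min (1 / (6 * α)) (min (ε / (6 * α ^ 2)) (1 / 2)),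
      by positivity, ?_, ?_, ?_⟩
    · have : min (1 / (6 * α)) (min (ε / (6 * α ^ 2)) (1 / 2)) ≤ 1 / (6 * α) := min_le_left _ _
      calc _ ≤ 3 * α * (1 / (6 * α)) := mul_le_mul_of_nonneg_left this (by positivity)
        _ = 1 / 2 := by field_simp; norm_num
    · have : min (1 / (6 * α)) (min (ε / (6 * α ^ 2)) (1 / 2)) ≤ ε / (6 * α ^ 2) :=
        (min_le_right _ _).trans (min_le_left _ _)
      calc _ ≤ 6 * α ^ 2 * (ε / (6 * α ^ 2)) := mul_le_mul_of_nonneg_left this (by positivity)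
        _ = ε := by field_simp
    · exact (min_le_right _ _).trans (min_le_right _ _)
  obtain ⟨n, s, N, hn, hsn, hN, hX⟩ := h r δ' hr0 hr1 hF hδ'0
  have hn0 : (1 : ℝ) ≤ n := by exact_mod_cast hn
  obtain ⟨e, he⟩ : ∃ e : ℝ, e = n / r - s := ⟨_, rfl⟩
  have he1 : |e| ≤ δ' * n := by
    rw [he, abs_sub_comm]
    exact hsn
  have he2 := abs_le.1 he1
  have hnr : (n : ℝ) = r * (s + e) := by
    rw [he]
    field_simp
    ring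
  have hnr2 : (n : ℝ) ≤ n / r := by
    rw [le_div_iff₀ hr0]
    nlinarith
  have hn2s : (n : ℝ) ≤ 2 * s := by
    have h1 : δ' * n ≤ 1 / 2 * n := mul_le_mul_of_nonneg_right hδ'5 (by linarith)
    have h2 : (n : ℝ) / r ≤ s + δ' * n := by linarith [he2.2]
    linarith
  have hs0 : (0 : ℝ) < s := by linarith
  have hs1 : 1 ≤ s := by
    have : 0 < s := by exact_mod_cast hs0
    omega
  have he3 : |e| ≤ 2 * δ' * s := by
    refine he1.trans ?_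
    nlinarith
  set D : ℝ := s * Real.log 2 - n * Real.log 3 with hD
  have hDe : D = s / α - r * e * Real.log 3 := by
    have h1 : (s : ℝ) / α = s * (Real.log 2 - r * Real.log 3) := by
      rw [← hspec]
      ring
    rw [hD, h1, hnr]
    ring
  have hDerr : |r * e * Real.log 3| ≤ 3 * δ' * s := by
    rw [abs_mul, abs_mul, abs_of_pos hr0, abs_of_pos hl3]
    have h1 : r * |e| ≤ 1 * (2 * δ' * s) :=
      mul_le_mul hr1.le he3 (abs_nonneg _) (by norm_num)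
    calc r * |e| * Real.log 3 ≤ 1 * (2 * δ' * s) * (3 / 2) :=
          mul_le_mul h1 hl3'.le hl3.le (by positivity)
      _ = 3 * δ' * s := by ring
  have hDe2 := abs_le.1 hDerr
  set t : ℝ := 3 * α * δ' with ht
  have ht0 : 0 ≤ t := by positivity
  have hst : 3 * δ' * s = s / α * t := by
    rw [ht]
    field_simp
  have hDlow : s / α * (1 - t) ≤ D := by
    rw [hDe]
    have := hDe2.2
    rw [hst] at this
    linarith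
  have hDup : D ≤ s / α * (1 + t) := by
    rw [hDe]
    have := hDe2.1
    rw [hst] at this
    linarith
  have hsα : 0 < s / α := by positivity
  have hD0 : 0 < D := by
    refine lt_of_lt_of_le ?_ hDlow
    have : 0 < 1 - t := by linarith
    positivity
  have hq1 : α * (1 - t) ≤ s / D := by
    rw [le_div_iff₀ hD0]
    have h1 : α * (1 - t) * D ≤ α * (1 - t) * (s / α * (1 + t)) :=
      mul_le_mul_of_nonneg_left hDup (mul_nonneg hα0.le (by linarith))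
    have h2 : α * (1 - t) * (s / α * (1 + t)) = s * (1 - t ^ 2) := by
      field_simp
      ring
    rw [h2] at h1
    nlinarith [sq_nonneg t]
  have hq2 : s / D ≤ α * (1 + 2 * t) := by
    rw [div_le_iff₀ hD0]
    have h1 : α * (1 + 2 * t) * (s / α * (1 - t)) ≤ α * (1 + 2 * t) * D :=
      mul_le_mul_of_nonneg_left hDlow (by positivity)
    have h2 : α * (1 + 2 * t) * (s / α * (1 - t)) = s * (1 + t * (1 - 2 * t)) := by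
      field_simp
      ring
    rw [h2] at h1
    have h3 : 0 ≤ t * (1 - 2 * t) := mul_nonneg ht0 (by linarith)
    nlinarith
  have ht2 : α * (2 * t) ≤ ε := by
    have : α * (2 * t) = 6 * α ^ 2 * δ' := by
      rw [ht]
      ring
    linarith
  refine ⟨n, s, hs1, hD0, ?_, fun y hy => ?_⟩
  · rw [abs_le]
    have : 0 ≤ α * t := by positivity
    constructor
    · nlinarith
    · nlinarith
  · obtain ⟨X, hXc, hXm⟩ := hX y hy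
    have hN0 : 0 < N := by
      have h1 : (0 : ℝ) < N := lt_of_lt_of_le (Real.exp_pos _) hN
      exact_mod_cast h1
    have hne : X.Nonempty := by
      rw [← card_pos, hXc]
      exact hN0
    obtain ⟨x, hx⟩ := hne
    exact ⟨x, hXm x hx⟩

/-- the error of the linear approximation -/
noncomputable def er (k : ℕ) (z : ℤ) : ℝ := (T^[k] z : ℝ) - 3 ^ oc k z * z / 2 ^ k

theorem oc_one (v : ℤ) : oc 1 v = if v % 2 = 1 then 1 else 0 := by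
  show (if v % 2 = 1 then 1 else 0) + 0 = _
  rw [add_zero]

theorem step_cases (k : ℕ) (z : ℤ) :
    (oc (k + 1) z = oc k z ∧ er (k + 1) z = er k z / 2) ∨
    (oc (k + 1) z = oc k z + 1 ∧ er (k + 1) z = (3 * er k z + 1) / 2) := by
  have h1 : oc (k + 1) z = oc k z + oc 1 (T^[k] z) := oc_add k 1 z
  have h2 : T^[k + 1] z = T (T^[k] z) := Function.iterate_succ_apply' T k z
  rw [oc_one] at h1
  unfold er
  rw [h2]
  set v := T^[k] z with hv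
  rcases Int.emod_two_eq_zero_or_one v with h0 | h0
  · left
    rw [if_neg (by omega), add_zero] at h1
    refine ⟨h1, ?_⟩
    rw [h1]
    have h3 : T v = v / 2 := by unfold T; rw [if_pos h0]
    rw [h3]
    have h4 : ((v / 2 : ℤ) : ℝ) = (v : ℝ) / 2 := by
      rw [Int.cast_div (by omega) (by norm_num)]
      norm_num
    rw [h4, pow_succ]
    field_simp
  · right
    rw [if_pos h0] at h1
    refine ⟨h1, ?_⟩
    rw [h1]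
    have h3 : T v = (3 * v + 1) / 2 := by unfold T; rw [if_neg (by omega)]
    rw [h3]
    have h4 : (((3 * v + 1) / 2 : ℤ) : ℝ) = (3 * (v : ℝ) + 1) / 2 := by
      rw [Int.cast_div (by omega) (by norm_num)]
      push_cast
      ring
    rw [h4, pow_succ, pow_succ]
    field_simp
    ring

theorem er_bd (S d : ℕ) (z : ℤ) : |er (S + d) z| ≤ 2 ^ d * (|er S z| + 1) := by
  have key : |er (S + d) z| + 1 ≤ 2 ^ d * (|er S z| + 1) := by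
    induction d with
    | zero => simp
    | succ d ih =>
      have h0 := abs_nonneg (er (S + d) z)
      have h1 : |er (S + (d + 1)) z| ≤ 2 * |er (S + d) z| + 1 := by
        rw [← add_assoc]
        rcases step_cases (S + d) z with ⟨-, h2⟩ | ⟨-, h2⟩
        · rw [h2, abs_div, abs_of_pos (show (0 : ℝ) < 2 by norm_num)]
          linarith
        · rw [h2, abs_div, abs_of_pos (show (0 : ℝ) < 2 by norm_num)]
          have h3 : |3 * er (S + d) z + 1| ≤ 3 * |er (S + d) z| + 1 := by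
            refine (abs_add_le _ _).trans ?_
            rw [abs_mul, abs_of_pos (show (0 : ℝ) < 3 by norm_num), abs_one]
          linarith
      rw [pow_succ]
      linarith
  linarith

theorem oc_bd (S d : ℕ) (z : ℤ) : oc S z ≤ oc (S + d) z ∧ oc (S + d) z ≤ oc S z + d := by
  rw [oc_add]
  exact ⟨Nat.le_add_right _ _, Nat.add_le_add_left (Pool.Agent.Q74.AR.oc_le d _) _⟩

/-- two kinds of blocks -/
theorem two {n₁ s₁ n₂ s₂ : ℕ} (hns₁ : 3 ^ n₁ < 2 ^ s₁) (hns₂ : 3 ^ n₂ < 2 ^ s₂)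
    (h₁ : ∀ y : ℤ, ¬ (3 : ℤ) ∣ y → ∃ x : ℤ, ¬ (3 : ℤ) ∣ x ∧ T^[s₁] x = y ∧ oc s₁ x = n₁ ∧
      |3 ^ n₁ * x - 2 ^ s₁ * y| ≤ 3 ^ n₁ * 2 ^ s₁)
    (h₂ : ∀ y : ℤ, ¬ (3 : ℤ) ∣ y → ∃ x : ℤ, ¬ (3 : ℤ) ∣ x ∧ T^[s₂] x = y ∧ oc s₂ x = n₂ ∧
      |3 ^ n₂ * x - 2 ^ s₂ * y| ≤ 3 ^ n₂ * 2 ^ s₂) (K₁ K₂ : ℕ) (y : ℤ) (hy : ¬ (3 : ℤ) ∣ y) :
    ∃ x : ℤ, T^[K₁ * s₁ + K₂ * s₂] x = y ∧ oc (K₁ * s₁ + K₂ * s₂) x = K₁ * n₁ + K₂ * n₂ ∧
      |(x : ℝ) - ((2 : ℝ) ^ s₁ / 3 ^ n₁) ^ K₁ * ((2 : ℝ) ^ s₂ / 3 ^ n₂) ^ K₂ * y| ≤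
        (2 ^ s₁ / ((2 : ℝ) ^ s₁ / 3 ^ n₁ - 1) + 2 ^ s₂ / ((2 : ℝ) ^ s₂ / 3 ^ n₂ - 1)) *
          (((2 : ℝ) ^ s₁ / 3 ^ n₁) ^ K₁ * ((2 : ℝ) ^ s₂ / 3 ^ n₂) ^ K₂) := by
  obtain ⟨x', hx1, hx2, hx3, hx4⟩ := Q209.BT.iter_blk hns₂ h₂ K₂ y hy
  obtain ⟨x, -, hz2, hz3, hz4⟩ := Q209.BT.iter_blk hns₁ h₁ K₁ x' hx1
  have hρ₁ : 1 < (2 : ℝ) ^ s₁ / 3 ^ n₁ := by
    rw [one_lt_div (by positivity)]
    exact_mod_cast hns₁
  have hρ₂ : 1 < (2 : ℝ) ^ s₂ / 3 ^ n₂ := by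
    rw [one_lt_div (by positivity)]
    exact_mod_cast hns₂
  set ρ₁ : ℝ := (2 : ℝ) ^ s₁ / 3 ^ n₁
  set ρ₂ : ℝ := (2 : ℝ) ^ s₂ / 3 ^ n₂
  have hc₁ : 0 < 2 ^ s₁ / (ρ₁ - 1) := by
    have : 0 < ρ₁ - 1 := by linarith
    positivity
  have hc₂ : 0 < 2 ^ s₂ / (ρ₂ - 1) := by
    have : 0 < ρ₂ - 1 := by linarith
    positivity
  have hp₁ : 0 < ρ₁ ^ K₁ := by positivity
  have hp₂ : 1 ≤ ρ₂ ^ K₂ := one_le_pow₀ hρ₂.le
  refine ⟨x, ?_, ?_, ?_⟩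
  · rw [add_comm, Function.iterate_add_apply, hz2, hx2]
  · rw [oc_add, hz2, hz3, hx3]
  · have e : (x : ℝ) - ρ₁ ^ K₁ * ρ₂ ^ K₂ * y =
        (x - ρ₁ ^ K₁ * x') + ρ₁ ^ K₁ * (x' - ρ₂ ^ K₂ * y) := by ring
    rw [e]
    refine (abs_add_le _ _).trans ?_
    rw [abs_mul, abs_of_pos hp₁]
    have h5 : ρ₁ ^ K₁ * |(x' : ℝ) - ρ₂ ^ K₂ * y| ≤
        ρ₁ ^ K₁ * (2 ^ s₂ / (ρ₂ - 1) * (ρ₂ ^ K₂ - 1)) := mul_le_mul_of_nonneg_left hx4 hp₁.le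
    have h6 : 2 ^ s₁ / (ρ₁ - 1) * (ρ₁ ^ K₁ - 1) ≤ 2 ^ s₁ / (ρ₁ - 1) * (ρ₁ ^ K₁ * ρ₂ ^ K₂) := by
      apply mul_le_mul_of_nonneg_left _ hc₁.le
      nlinarith
    have h7 : ρ₁ ^ K₁ * (2 ^ s₂ / (ρ₂ - 1) * (ρ₂ ^ K₂ - 1)) ≤
        2 ^ s₂ / (ρ₂ - 1) * (ρ₁ ^ K₁ * ρ₂ ^ K₂) := by
      have : 0 ≤ ρ₁ ^ K₁ * (2 ^ s₂ / (ρ₂ - 1)) := by positivity
      nlinarith
    linarith

/-- numbers of blocks of the two kinds -/
theorem solve2 {s₁ s₂ D₁ D₂ k lam : ℝ} (hs₁ : 0 < s₁) (hs₂ : 0 < s₂) (hD₁ : 0 < D₁) (hD₂ : 0 < D₂)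
    (hΔ : 0 < s₂ * D₁ - s₁ * D₂) (hk3 : k * D₂ ≤ lam * s₂) (hk4 : s₁ * lam ≤ k * D₁) :
    ∃ K₁ K₂ : ℕ, K₁ * s₁ + K₂ * s₂ ≤ k ∧ k ≤ K₁ * s₁ + K₂ * s₂ + (s₁ + s₂) ∧
      K₁ * D₁ + K₂ * D₂ ≤ lam ∧ lam ≤ K₁ * D₁ + K₂ * D₂ + (D₁ + D₂) := by
  obtain ⟨i₁, hi₁⟩ : ∃ i₁ : ℝ, i₁ = (lam * s₂ - k * D₂) / (s₂ * D₁ - s₁ * D₂) := ⟨_, rfl⟩
  obtain ⟨i₂, hi₂⟩ : ∃ i₂ : ℝ, i₂ = (k * D₁ - s₁ * lam) / (s₂ * D₁ - s₁ * D₂) := ⟨_, rfl⟩
  have hi₁0 : 0 ≤ i₁ := by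
    rw [hi₁]
    exact div_nonneg (by linarith) hΔ.le
  have hi₂0 : 0 ≤ i₂ := by
    rw [hi₂]
    exact div_nonneg (by linarith) hΔ.le
  have hsum1 : i₁ * s₁ + i₂ * s₂ = k := by
    rw [hi₁, hi₂, div_mul_eq_mul_div, div_mul_eq_mul_div, ← add_div, div_eq_iff hΔ.ne']
    ring
  have hsum2 : i₁ * D₁ + i₂ * D₂ = lam := by
    rw [hi₁, hi₂, div_mul_eq_mul_div, div_mul_eq_mul_div, ← add_div, div_eq_iff hΔ.ne']
    ring
  have a1 : (⌊i₁⌋₊ : ℝ) ≤ i₁ := Nat.floor_le hi₁0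
  have a2 : i₁ ≤ (⌊i₁⌋₊ : ℝ) + 1 := (Nat.lt_floor_add_one i₁).le
  have a3 : (⌊i₂⌋₊ : ℝ) ≤ i₂ := Nat.floor_le hi₂0
  have a4 : i₂ ≤ (⌊i₂⌋₊ : ℝ) + 1 := (Nat.lt_floor_add_one i₂).le
  refine ⟨⌊i₁⌋₊, ⌊i₂⌋₊, ?_, ?_, ?_, ?_⟩
  · rw [← hsum1]
    exact add_le_add (mul_le_mul_of_nonneg_right a1 hs₁.le) (mul_le_mul_of_nonneg_right a3 hs₂.le)
  · rw [← hsum1]
    have b1 := mul_le_mul_of_nonneg_right a2 hs₁.le
    have b2 := mul_le_mul_of_nonneg_right a4 hs₂.le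
    linarith
  · rw [← hsum2]
    exact add_le_add (mul_le_mul_of_nonneg_right a1 hD₁.le) (mul_le_mul_of_nonneg_right a3 hD₂.le)
  · rw [← hsum2]
    have b1 := mul_le_mul_of_nonneg_right a2 hD₁.le
    have b2 := mul_le_mul_of_nonneg_right a4 hD₂.le
    linarith

/-- the last steps -/
theorem last_steps {S d a : ℕ} (hda : d ≤ a) {x : ℤ} {ρ E₁ C₁ l : ℝ} (hρ : 0 < ρ) (hE₁ : 0 < E₁) (hC₁ : 0 < C₁)
    (hl : 0 < l) (hG : (3 : ℝ) ^ oc S x * ρ = 2 ^ S) (h1 : 1 ≤ l / ρ) (h2 : l / ρ ≤ E₁) (h3 : |er S x| ≤ C₁) :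
    (2 : ℝ) ^ (S + d) ≤ 2 ^ a * (E₁ + C₁ + 1) * (3 ^ oc (S + d) x * l) ∧
      (3 : ℝ) ^ oc (S + d) x * l ≤ 2 ^ a * (E₁ + C₁ + 1) * 2 ^ (S + d) ∧
      |er (S + d) x| ≤ 2 ^ a * (E₁ + C₁ + 1) := by
  have h2d : (2 : ℝ) ^ d ≤ 2 ^ a := pow_le_pow_right₀ (by norm_num) hda
  have hP : (0 : ℝ) < 2 ^ a := by positivity
  have hoc := oc_bd S d x
  have h13 : (2 : ℝ) ^ (S + d) = 2 ^ d * 2 ^ S := by rw [pow_add]; ring
  have h3o : (0 : ℝ) < 3 ^ oc S x := by positivity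
  have hEC : 1 ≤ E₁ + C₁ + 1 := by linarith
  refine ⟨?_, ?_, ?_⟩
  · have h14 : (2 : ℝ) ^ S ≤ 3 ^ oc S x * l := by
      rw [← hG]
      apply mul_le_mul_of_nonneg_left _ h3o.le
      rwa [le_div_iff₀ hρ, one_mul] at h1
    have h16 : (3 : ℝ) ^ oc S x * l ≤ 3 ^ oc (S + d) x * l :=
      mul_le_mul_of_nonneg_right (pow_le_pow_right₀ (by norm_num) hoc.1) hl.le
    rw [h13]
    have h17 : (0 : ℝ) ≤ 3 ^ oc (S + d) x * l := by positivity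
    calc (2 : ℝ) ^ d * 2 ^ S ≤ 2 ^ a * (3 ^ oc (S + d) x * l) :=
          mul_le_mul h2d (h14.trans h16) (by positivity) hP.le
      _ = 2 ^ a * 1 * (3 ^ oc (S + d) x * l) := by rw [mul_one]
      _ ≤ 2 ^ a * (E₁ + C₁ + 1) * (3 ^ oc (S + d) x * l) :=
          mul_le_mul_of_nonneg_right (mul_le_mul_of_nonneg_left hEC hP.le) h17
  · have h14 : (3 : ℝ) ^ oc S x * l ≤ E₁ * 2 ^ S := by
      rw [← hG]
      have h15 : l ≤ E₁ * ρ := by rwa [div_le_iff₀ hρ] at h2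
      calc (3 : ℝ) ^ oc S x * l ≤ 3 ^ oc S x * (E₁ * ρ) := mul_le_mul_of_nonneg_left h15 h3o.le
        _ = E₁ * (3 ^ oc S x * ρ) := by ring
    have h16 : (3 : ℝ) ^ oc (S + d) x ≤ 3 ^ oc S x * 3 ^ d := by
      rw [← pow_add]
      exact pow_le_pow_right₀ (by norm_num) hoc.2
    have h17 : (3 : ℝ) ^ d ≤ 2 ^ d * 2 ^ d := by
      rw [← mul_pow]
      exact pow_le_pow_left₀ (by norm_num) (by norm_num) d
    calc (3 : ℝ) ^ oc (S + d) x * l ≤ 3 ^ oc S x * 3 ^ d * l := mul_le_mul_of_nonneg_right h16 hl.le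
      _ = 3 ^ d * (3 ^ oc S x * l) := by ring
      _ ≤ (2 ^ d * 2 ^ d) * (E₁ * 2 ^ S) := mul_le_mul h17 h14 (by positivity) (by positivity)
      _ = 2 ^ d * E₁ * 2 ^ (S + d) := by rw [h13]; ring
      _ ≤ 2 ^ a * (E₁ + C₁ + 1) * 2 ^ (S + d) := by
          apply mul_le_mul_of_nonneg_right _ (by positivity)
          exact mul_le_mul h2d (by linarith) hE₁.le hP.le
  · have h16 := er_bd S d x
    calc |er (S + d) x| ≤ 2 ^ d * (|er S x| + 1) := h16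
      _ ≤ 2 ^ a * (E₁ + C₁ + 1) :=
        mul_le_mul h2d (by linarith) (by positivity) hP.le

theorem rho_exp (n s : ℕ) : (2 : ℝ) ^ s / 3 ^ n = Real.exp (s * Real.log 2 - n * Real.log 3) := by
  rw [Real.exp_sub, mul_comm, Real.exp_mul, Real.exp_log (by norm_num), mul_comm (n : ℝ),
    Real.exp_mul, Real.exp_log (by norm_num), Real.rpow_natCast, Real.rpow_natCast]

/-- a point of the base prime to 3 -/
theorem exy {m l ρ C₁ : ℝ} (h : 2 * C₁ + 5 ≤ l / ρ) : ∃ y : ℤ, ¬ (3 : ℤ) ∣ y ∧ m / ρ + C₁ ≤ y ∧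
      (y : ℝ) < (m + l) / ρ - C₁ := by
  have h1 : m / ρ + C₁ ≤ ⌈m / ρ + C₁⌉ := Int.le_ceil _
  have h2 : (⌈m / ρ + C₁⌉ : ℝ) < m / ρ + C₁ + 1 := Int.ceil_lt_add_one _
  have h3 : (m + l) / ρ = m / ρ + l / ρ := by ring
  by_cases h4 : (3 : ℤ) ∣ ⌈m / ρ + C₁⌉
  · refine ⟨⌈m / ρ + C₁⌉ + 1, by omega, ?_, ?_⟩
    · push_cast
      linarith
    · push_cast
      rw [h3]
      linarith
  · refine ⟨⌈m / ρ + C₁⌉, h4, h1, ?_⟩
    rw [h3]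
    linarith

/-- the trajectory for one base point -/
theorem exj (h : S_BM) {γ : ℝ} (hγ : IsG γ) {α₁ α₂ : ℝ} (hα₁ : 1 / Real.log 2 < α₁)
    (hα : α₁ ≤ α₂) (hα₂ : α₂ < γ) : ∃ C : ℝ, 1 ≤ C ∧ ∃ L₀ : ℕ, ∀ L : ℕ, L₀ ≤ L →
    ∀ k : ℕ, α₁ * Real.log L ≤ k → (k : ℝ) ≤ α₂ * Real.log L → ∀ m : ℤ, ∃ j : ℕ, j < L ∧
      (2 : ℝ) ^ k ≤ C * (3 ^ oc k (m + j) * L) ∧ (3 : ℝ) ^ oc k (m + j) * L ≤ C * 2 ^ k ∧
      |er k (m + j)| ≤ C := by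
  obtain ⟨n₁, s₁, hs₁, hD₁, hq₁, hw₁⟩ := word h hγ (α := (1 / Real.log 2 + α₁) / 2)
    (ε := (α₁ - 1 / Real.log 2) / 4) (by linarith) (by linarith) (by linarith)
  obtain ⟨n₂, s₂, hs₂, hD₂, hq₂, hw₂⟩ := word h hγ (α := (α₂ + γ) / 2)
    (ε := (γ - α₂) / 4) (by linarith) (by linarith) (by linarith)
  have htwo := two (n₁ := n₁) (s₁ := s₁) (n₂ := n₂) (s₂ := s₂) (by
      have h1 : (1 : ℝ) < 2 ^ s₁ / 3 ^ n₁ := by
        rw [rho_exp]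
        exact Real.one_lt_exp_iff.2 hD₁
      rw [one_lt_div (by positivity)] at h1
      exact_mod_cast h1) (by
      have h1 : (1 : ℝ) < 2 ^ s₂ / 3 ^ n₂ := by
        rw [rho_exp]
        exact Real.one_lt_exp_iff.2 hD₂
      rw [one_lt_div (by positivity)] at h1
      exact_mod_cast h1) hw₁ hw₂
  have hρ₁e := rho_exp n₁ s₁
  have hρ₂e := rho_exp n₂ s₂
  obtain ⟨D₁, hD₁d⟩ : ∃ D : ℝ, D = s₁ * Real.log 2 - n₁ * Real.log 3 := ⟨_, rfl⟩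
  obtain ⟨D₂, hD₂d⟩ : ∃ D : ℝ, D = s₂ * Real.log 2 - n₂ * Real.log 3 := ⟨_, rfl⟩
  rw [← hD₁d] at hD₁ hq₁ hρ₁e
  rw [← hD₂d] at hD₂ hq₂ hρ₂e
  have hs₁0 : (0 : ℝ) < s₁ := by exact_mod_cast hs₁
  have hs₂0 : (0 : ℝ) < s₂ := by exact_mod_cast hs₂
  have hq₁' : s₁ / D₁ < α₁ := by
    have := (abs_le.1 hq₁).2
    linarith
  have hq₂' : α₂ < s₂ / D₂ := by
    have := (abs_le.1 hq₂).1
    linarith
  rw [hρ₁e, hρ₂e] at htwo
  have he₁ : 1 < Real.exp D₁ := Real.one_lt_exp_iff.2 hD₁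
  have he₂ : 1 < Real.exp D₂ := Real.one_lt_exp_iff.2 hD₂
  obtain ⟨C₁, hC₁⟩ : ∃ C : ℝ, C = 2 ^ s₁ / (Real.exp D₁ - 1) + 2 ^ s₂ / (Real.exp D₂ - 1) := ⟨_, rfl⟩
  rw [← hC₁] at htwo
  have hC₁0 : 0 < C₁ := by
    rw [hC₁]
    have h1 : 0 < Real.exp D₁ - 1 := by linarith
    have h2 : 0 < Real.exp D₂ - 1 := by linarith
    exact add_pos (div_pos (by positivity) h1) (div_pos (by positivity) h2)
  obtain ⟨C₂, hC₂⟩ : ∃ C : ℝ, C = Real.log (2 * C₁ + 5) := ⟨_, rfl⟩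
  have hC₂0 : 0 ≤ C₂ := by rw [hC₂]; exact Real.log_nonneg (by linarith)
  obtain ⟨E₁, hE₁⟩ : ∃ E : ℝ, E = Real.exp (C₂ + D₁ + D₂) := ⟨_, rfl⟩
  have hE₁0 : 0 < E₁ := by rw [hE₁]; exact Real.exp_pos _
  obtain ⟨β, hβ⟩ : ∃ β : ℝ, β = s₂ / D₂ := ⟨_, rfl⟩
  rw [← hβ] at hq₂'
  have hq₂0 : 0 < β := by rw [hβ]; positivity
  refine ⟨2 ^ (s₁ + s₂) * (E₁ + C₁ + 1), ?_, ⌈Real.exp (β * C₂ / (β - α₂))⌉₊ + 1,
    fun L hL k hk1 hk2 m => ?_⟩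
  · have h1 : (1 : ℝ) ≤ 2 ^ (s₁ + s₂) := one_le_pow₀ (by norm_num)
    exact one_le_mul_of_one_le_of_one_le h1 (by linarith)
  have hL1 : Real.exp (β * C₂ / (β - α₂)) ≤ L :=
    (Nat.le_ceil _).trans (by exact_mod_cast (by omega))
  have hL0 : (0 : ℝ) < L := lt_of_lt_of_le (Real.exp_pos _) hL1
  obtain ⟨l, hl⟩ : ∃ l : ℝ, l = Real.log L := ⟨_, rfl⟩
  rw [← hl] at hk1 hk2
  have hLexp : (L : ℝ) = Real.exp l := by rw [hl, Real.exp_log hL0]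
  have hl1 : β * C₂ / (β - α₂) ≤ l := by
    rw [hl, Real.le_log_iff_exp_le hL0]
    exact hL1
  have hβα : 0 < β - α₂ := by linarith
  have hl2 : β * C₂ ≤ l * (β - α₂) := by
    rwa [div_le_iff₀ hβα] at hl1
  have hl0 : 0 ≤ l := le_trans (div_nonneg (mul_nonneg hq₂0.le hC₂0) hβα.le) hl1
  obtain ⟨lam, hlam⟩ : ∃ x : ℝ, x = l - C₂ := ⟨_, rfl⟩
  have hΔ0 : 0 < s₂ * D₁ - s₁ * D₂ := by
    have h1 : s₁ / D₁ < s₂ / D₂ := by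
      rw [← hβ]
      linarith
    rw [div_lt_div_iff₀ hD₁ hD₂] at h1
    linarith
  have hk3 : (k : ℝ) * D₂ ≤ lam * s₂ := by
    have h1 : (k : ℝ) ≤ lam * β := by
      rw [hlam]
      linarith
    have h2 : lam * β = lam * s₂ / D₂ := by rw [hβ]; ring
    rw [h2, le_div_iff₀ hD₂] at h1
    exact h1
  have hk4 : s₁ * lam ≤ k * D₁ := by
    have h1 : s₁ / D₁ * lam ≤ k := by
      have h3 : 0 < s₁ / D₁ := by positivity
      have h4 : s₁ / D₁ * lam ≤ s₁ / D₁ * l := mul_le_mul_of_nonneg_left (by linarith) h3.le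
      have h5 : s₁ / D₁ * l ≤ α₁ * l := mul_le_mul_of_nonneg_right hq₁'.le hl0
      linarith
    have h2 : s₁ / D₁ * lam = s₁ * lam / D₁ := by ring
    rw [h2, div_le_iff₀ hD₁] at h1
    exact h1
  obtain ⟨K₁, K₂, hSk, hSk2, hlr1, hlr2⟩ := solve2 hs₁0 hs₂0 hD₁ hD₂ hΔ0 hk3 hk4
  have hSk : K₁ * s₁ + K₂ * s₂ ≤ k := by exact_mod_cast hSk
  have hSk2 : k ≤ K₁ * s₁ + K₂ * s₂ + (s₁ + s₂) := by exact_mod_cast hSk2
  obtain ⟨d, hd⟩ := Nat.exists_eq_add_of_le hSk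
  have hdle : d ≤ s₁ + s₂ := by omega
  have hρe : Real.exp D₁ ^ K₁ * Real.exp D₂ ^ K₂ = Real.exp (K₁ * D₁ + K₂ * D₂) := by
    rw [← Real.exp_nat_mul, ← Real.exp_nat_mul, ← Real.exp_add]
  have hρs : Real.exp D₁ ^ K₁ * Real.exp D₂ ^ K₂ * 3 ^ (K₁ * n₁ + K₂ * n₂) = 2 ^ (K₁ * s₁ + K₂ * s₂) := by
    rw [← hρ₁e, ← hρ₂e, div_pow, div_pow, ← pow_mul, ← pow_mul, ← pow_mul,
      ← pow_mul, pow_add, pow_add, mul_comm s₁ K₁, mul_comm s₂ K₂, mul_comm n₁ K₁,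
      mul_comm n₂ K₂]
    field_simp
  have htw := htwo K₁ K₂
  obtain ⟨ρ, hρ⟩ : ∃ ρ : ℝ, ρ = Real.exp D₁ ^ K₁ * Real.exp D₂ ^ K₂ := ⟨_, rfl⟩
  rw [← hρ] at hρe hρs htw
  have hρ0 : 0 < ρ := by rw [hρe]; exact Real.exp_pos _
  have hLρ1 : 2 * C₁ + 5 ≤ L / ρ := by
    have h1 : 2 * C₁ + 5 = Real.exp C₂ := by
      rw [hC₂, Real.exp_log (by linarith)]
    rw [h1, hLexp, hρe, ← Real.exp_sub]
    apply Real.exp_le_exp.2
    rw [hlam] at hlr1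
    linarith
  have hLρ2 : L / ρ ≤ E₁ := by
    rw [hE₁, hLexp, hρe, ← Real.exp_sub]
    apply Real.exp_le_exp.2
    rw [hlam] at hlr2
    linarith
  obtain ⟨y, hy3, hy1, hy2⟩ := exy (m := (m : ℝ)) hLρ1
  obtain ⟨x, hx1, hx2, hx3⟩ := htw y hy3
  have hx4 := abs_le.1 hx3
  have h7 : (m : ℝ) + C₁ * ρ ≤ ρ * y := by
    have := mul_le_mul_of_nonneg_right hy1 hρ0.le
    rw [add_mul, div_mul_cancel₀ _ hρ0.ne'] at this
    linarith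
  have h8 : ρ * y < m + L - C₁ * ρ := by
    have := mul_lt_mul_of_pos_right hy2 hρ0
    rw [sub_mul, div_mul_cancel₀ _ hρ0.ne'] at this
    linarith
  have h9 : (m : ℝ) ≤ x := by linarith
  have h10 : (x : ℝ) < m + L := by linarith
  have h11 : m ≤ x := by exact_mod_cast h9
  have h12 : x < m + L := by exact_mod_cast h10
  have hmx : m + ((x - m).toNat : ℤ) = x := by omega
  have hG : (3 : ℝ) ^ oc (K₁ * s₁ + K₂ * s₂) x * ρ = 2 ^ (K₁ * s₁ + K₂ * s₂) := by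
    rw [hx2, ← hρs]
    ring
  have h3o : (0 : ℝ) < 3 ^ oc (K₁ * s₁ + K₂ * s₂) x := by positivity
  have h14 : |er (K₁ * s₁ + K₂ * s₂) x| ≤ C₁ := by
    have h13 : er (K₁ * s₁ + K₂ * s₂) x = -((x - ρ * y) / ρ) := by
      unfold er
      rw [hx1, ← hG, mul_div_mul_left _ _ h3o.ne', sub_div, mul_div_cancel_left₀ _ hρ0.ne']
      ring
    rw [h13, abs_neg, abs_div, abs_of_pos hρ0, div_le_iff₀ hρ0]
    exact hx3
  obtain ⟨f1, f2, f3⟩ := last_steps hdle hρ0 hE₁0 hC₁0 hL0 hG (by linarith) hLρ2 h14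
  rw [← hd] at f1 f2 f3
  refine ⟨(x - m).toNat, by omega, ?_⟩
  rw [hmx]
  exact ⟨f1, f2, f3⟩

/-- JOB NetE. -/
theorem netE (h : S_BM) : S_NetE := by
  intro γ hγ α₁ α₂ h1 h2 h3
  obtain ⟨C, hC, L₀, hL₀⟩ := exj h hγ h1 h2 h3
  refine ⟨C, hC, L₀, fun L hL k hk1 hk2 => ?_⟩
  choose J hJ using hL₀ L hL k hk1 hk2
  refine ⟨fun x => J (x % 2 ^ k), fun x => (hJ _).1, fun x y => ?_, fun x => ?_⟩
  · simp only
    rw [Int.add_mul_emod_self_left]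
  · simp only
    set m : ℤ := x % 2 ^ k with hm
    obtain ⟨q, hq⟩ : ∃ q : ℤ, x = m + 2 ^ k * q := ⟨x / 2 ^ k, (Int.emod_add_mul_ediv x _).symm⟩
    have e : x + (J m : ℤ) = (m + J m) + 2 ^ k * q := by
      rw [hq]
      ring
    have hoc : oc k (x + J m) = oc k (m + J m) := by
      rw [e, Pool.Agent.Q74.AR.oc_per]
    have hT : T^[k] (x + J m) = T^[k] (m + J m) + 3 ^ oc k (m + J m) * q := by
      rw [e, Pool.Agent.Q74.BL.T_add]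
    obtain ⟨-, g1, g2, g3⟩ := hJ m
    rw [hoc, hT]
    refine ⟨g1, g2, ?_⟩
    have e2 : ((T^[k] (m + J m) + 3 ^ oc k (m + J m) * q : ℤ) : ℝ) -
        3 ^ oc k (m + J m) * ((x : ℝ) + J m) / 2 ^ k = er k (m + J m) := by
      unfold er
      rw [hq]
      push_cast
      field_simp
      ring
    rw [e2]
    exact g3

end Q144.BT
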